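import Mathlib

/-!
# Barely independent families: general lemmas
-/

set_option autoImplicit false

open Cardinal Set

namespace Pool.Agent.Helper914_BI

/-- `S` splits `R`. -/
def Splits (S R : Set ℕ) : Prop := (R ∩ S).Infinite ∧ (R \ S).Infinite

/-- `A^0 = A`, `A^1 = X \ A`. -/
def side {X : Type} (A : Set X) : Bool → Set X
  | false => A
  | true => Aᶜ

/-- `I` is a barely independent family of subsets of `X` (over the cardinal `λ = #X`). -/
structure BarelyIndependent (X : Type) (I : Set (Set X)) : Prop where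
  infinite : I.Infinite
  card : ∀ A ∈ I, #A = #X
  finite_comb : ∀ F : Set (Set X), F ⊆ I → F.Finite → ∀ h : Set X → Bool,
    #(⋂ A ∈ F, side A (h A) : Set X) = #X
  countable_comb : ∀ F : Set (Set X), F ⊆ I → F.Infinite → F.Countable → ∀ h : Set X → Bool,
    #(⋂ A ∈ F, side A (h A) : Set X) < #X

/-- There is a barely independent family over the cardinal `lam`. -/
def ExistsBI (lam : Cardinal.{0}) : Prop :=
  ∃ X : Type, #X = lam ∧ ∃ I : Set (Set X), BarelyIndependent X I

/-- The splitting number. -/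
noncomputable def splittingNumber : Cardinal.{0} :=
  sInf {κ | ∃ S : Set (Set ℕ), #S = κ ∧ ∀ R : Set ℕ, R.Infinite → ∃ s ∈ S, Splits s R}

/-- The reaping number. -/
noncomputable def reapingNumber : Cardinal.{0} :=
  sInf {κ | ∃ R : Set (Set ℕ), #R = κ ∧ (∀ A ∈ R, A.Infinite) ∧
    ∀ S : Set ℕ, ∃ A ∈ R, ¬ Splits S A}

/-- A family `x` of subsets of `ω`, indexed by a set of size `λ`, such that every infinite
`R ⊆ ω` is split by all but fewer than `λ` of the sets. -/
def SplittingSequence (X : Type) (x : X → Set ℕ) : Prop :=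
  ∀ R : Set ℕ, R.Infinite → #{a | ¬ Splits (x a) R} < #X

/-- The trace of a sequence of sets. -/
def trace {X : Type} (A : ℕ → Set X) (a : X) : Set ℕ := {n | a ∈ A n}

lemma not_splits_subset {X : Type} (A : ℕ → Set X) (R : Set ℕ) :
    {a | ¬ Splits (trace A a) R} ⊆
      ⋃ p : ℕ × Bool, {a | ∀ n ∈ R, p.1 ≤ n → a ∈ side (A n) p.2} := by
  intro a ha
  simp only [mem_ofPred_eq, Splits, not_and_or, Set.not_infinite] at ha
  rcases ha with h | h
  · obtain ⟨k, hk⟩ := h.bddAbove
    refine mem_iUnion.2 ⟨(k+1, true), fun n hn hkn => ?_⟩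
    intro hmem
    have := hk (show n ∈ R ∩ trace A a from ⟨hn, hmem⟩)
    simp at hkn
    omega
  · obtain ⟨k, hk⟩ := h.bddAbove
    refine mem_iUnion.2 ⟨(k+1, false), fun n hn hkn => ?_⟩
    by_contra hmem
    have := hk (show n ∈ R \ trace A a from ⟨hn, hmem⟩)
    simp at hkn
    omega

lemma piece_lt {X : Type} {I : Set (Set X)} (hI : BarelyIndependent X I) (A : ℕ → Set X)
    (hA : ∀ n, A n ∈ I) (hinj : Function.Injective A) {R : Set ℕ} (hR : R.Infinite)
    (p : ℕ × Bool) : #{a | ∀ n ∈ R, p.1 ≤ n → a ∈ side (A n) p.2} < #X := by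
  have hR' : (R ∩ Ici p.1).Infinite := by
    intro hfin
    apply hR
    refine (hfin.union (finite_lt_nat p.1)).subset fun n hn => ?_
    by_cases h : p.1 ≤ n
    · exact Or.inl ⟨hn, h⟩
    · exact Or.inr (by simpa using h)
  have := hI.countable_comb (A '' (R ∩ Ici p.1)) (by rintro _ ⟨n, -, rfl⟩; exact hA n)
    (hR'.image hinj.injOn) ((to_countable _).image _) (fun _ => p.2)
  refine lt_of_le_of_lt (Cardinal.mk_le_mk_of_subset ?_) this
  intro a ha
  simp only [mem_iInter]
  rintro _ ⟨n, ⟨hn, hpn⟩, rfl⟩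
  exact ha n hn hpn

/-- A union of fewer than `cf λ` sets of size `< λ` has size `< λ`. -/
lemma mk_iUnion_lt {X ι : Type} (s : ι → Set X) (hX : ℵ₀ ≤ #X) (hι : #ι < (#X).ord.cof)
    (hs : ∀ i, #(s i) < #X) : #(⋃ i, s i) < #X := by
  refine lt_of_le_of_lt (Cardinal.mk_iUnion_le_sum_mk) ?_
  refine lt_of_le_of_lt (Cardinal.sum_le_mk_mul_iSup _) ?_
  have h1 : #ι < #X := lt_of_lt_of_le hι (Ordinal.cof_ord_le _)
  have h2 : (⨆ i, #(s i)) < #X := Cardinal.iSup_lt_of_lt_cof_ord hι hs
  exact Cardinal.mul_lt_of_lt hX h1 h2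

lemma le_of_cof {lam : Cardinal.{0}} (hcf : ℵ₀ < lam.ord.cof) : ℵ₀ < lam :=
  lt_of_lt_of_le hcf (Ordinal.cof_ord_le _)

lemma nonsplit_lt {X : Type} {I : Set (Set X)} (hI : BarelyIndependent X I)
    (hcf : ℵ₀ < (#X).ord.cof) (A : ℕ → Set X) (hA : ∀ n, A n ∈ I)
    (hinj : Function.Injective A) {R : Set ℕ} (hR : R.Infinite) :
    #{a | ¬ Splits (trace A a) R} < #X := by
  refine lt_of_le_of_lt (Cardinal.mk_le_mk_of_subset (not_splits_subset A R)) ?_
  refine mk_iUnion_lt _ (le_of_cof hcf).le ?_ (fun p => piece_lt hI A hA hinj hR p)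
  refine lt_of_le_of_lt ?_ hcf
  exact Cardinal.mk_le_aleph0

theorem exists_sequence {lam : Cardinal.{0}} (hcf : ℵ₀ < lam.ord.cof) (h : ExistsBI lam) :
    ∃ X : Type, #X = lam ∧ ∃ x : X → Set ℕ, SplittingSequence X x := by
  obtain ⟨X, rfl, I, hI⟩ := h
  have : Infinite I := hI.infinite.to_subtype
  let e : ℕ ↪ I := Infinite.natEmbedding I
  let A : ℕ → Set X := fun n => (e n : Set X)
  exact ⟨X, rfl, trace A, fun R hR => nonsplit_lt hI hcf A (fun n => (e n).2)
    (fun m n hmn => e.injective (Subtype.ext hmn)) hR⟩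

lemma reaping_nonempty : {κ : Cardinal.{0} | ∃ R : Set (Set ℕ), #R = κ ∧ (∀ A ∈ R, A.Infinite) ∧
    ∀ S : Set ℕ, ∃ A ∈ R, ¬ Splits S A}.Nonempty := by
  refine ⟨_, {B : Set ℕ | B.Infinite}, rfl, fun B hB => hB, fun S => ?_⟩
  by_cases hS : S.Infinite
  · exact ⟨S, hS, fun h => h.2 (by simp)⟩
  · exact ⟨Sᶜ, (Set.not_infinite.1 hS).infinite_compl, fun h => h.1 (by simp)⟩

/-- fewer than `𝔯` infinite sets can be split simultaneously -/
theorem exists_splits_of_lt {ι : Type} (R : ι → Set ℕ) (hR : ∀ i, (R i).Infinite)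
    (hι : #ι < reapingNumber) : ∃ S : Set ℕ, ∀ i, Splits S (R i) := by
  by_contra hcon
  push Not at hcon
  have hmem : #(range R) ∈ {κ : Cardinal.{0} | ∃ R : Set (Set ℕ), #R = κ ∧
      (∀ A ∈ R, A.Infinite) ∧ ∀ S : Set ℕ, ∃ A ∈ R, ¬ Splits S A} := by
    refine ⟨range R, rfl, ?_, fun S => ?_⟩
    · rintro _ ⟨i, rfl⟩; exact hR i
    · obtain ⟨i, hi⟩ := hcon S
      exact ⟨_, mem_range_self i, hi⟩
  have h1 : reapingNumber ≤ #(range R) := csInf_le' hmem
  exact absurd (h1.trans Cardinal.mk_range_le) (not_le.2 hι)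

theorem reaping_le_continuum : reapingNumber ≤ 𝔠 := by
  have hmem : #{B : Set ℕ | B.Infinite} ∈ {κ : Cardinal.{0} | ∃ R : Set (Set ℕ), #R = κ ∧
      (∀ A ∈ R, A.Infinite) ∧ ∀ S : Set ℕ, ∃ A ∈ R, ¬ Splits S A} := by
    refine ⟨{B : Set ℕ | B.Infinite}, rfl, fun B hB => hB, fun S => ?_⟩
    by_cases hS : S.Infinite
    · exact ⟨S, hS, fun h => h.2 (by simp)⟩
    · exact ⟨Sᶜ, (Set.not_infinite.1 hS).infinite_compl, fun h => h.1 (by simp)⟩
  refine (csInf_le' hmem).trans ((Cardinal.mk_set_le _).trans ?_)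
  simp

theorem of_sequence {X : Type} (hcf : ℵ₀ < (#X).ord.cof) (x : X → Set ℕ)
    (hx : SplittingSequence X x) : splittingNumber ≤ #X ∧ (#X).ord.cof ≤ reapingNumber := by
  have hX := (le_of_cof hcf).le
  constructor
  · have hmem : #(range x) ∈ {κ | ∃ S : Set (Set ℕ), #S = κ ∧
        ∀ R : Set ℕ, R.Infinite → ∃ s ∈ S, Splits s R} := by
      refine ⟨_, rfl, fun R hR => ?_⟩
      by_contra hcon
      push Not at hcon
      have huniv : {a | ¬ Splits (x a) R} = Set.univ := by
        ext a; simpa using hcon _ (mem_range_self a)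
      have := hx R hR
      rw [huniv, Cardinal.mk_univ] at this
      exact lt_irrefl _ this
    exact (csInf_le' hmem).trans Cardinal.mk_range_le
  · by_contra hcon
    push Not at hcon
    obtain ⟨R, hRκ, hRinf, hR⟩ := csInf_mem reaping_nonempty
    have hcard : #R < (#X).ord.cof := by
      have : #R = reapingNumber := hRκ
      rw [this]; exact hcon
    have hcov : (⋃ r : R, {a | ¬ Splits (x a) r.1}) = Set.univ := by
      ext a
      obtain ⟨B, hB, hB'⟩ := hR (x a)
      simp only [mem_iUnion, mem_ofPred_eq, mem_univ, iff_true]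
      exact ⟨⟨B, hB⟩, hB'⟩
    have := mk_iUnion_lt (fun r : R => {a | ¬ Splits (x a) r.1}) hX hcard
      (fun r => hx _ (hRinf _ r.2))
    rw [hcov, Cardinal.mk_univ] at this
    exact lt_irrefl _ this

/-- modify `s` below `k` according to the finite set `t`. -/
def modify (k : ℕ) (t : Finset ℕ) (s : Set ℕ) : Set ℕ := {n | if n < k then n ∈ t else n ∈ s}

lemma splits_modify {k : ℕ} {t : Finset ℕ} {s R : Set ℕ} (h : Splits s R) :
    Splits (modify k t s) R := by
  constructor
  · intro hfin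
    apply h.1
    refine (hfin.union (finite_lt_nat k)).subset fun n hn => ?_
    by_cases hk : n < k
    · exact Or.inr hk
    · exact Or.inl ⟨hn.1, by simpa [modify, hk] using hn.2⟩
  · intro hfin
    apply h.2
    refine (hfin.union (finite_lt_nat k)).subset fun n hn => ?_
    by_cases hk : n < k
    · exact Or.inr hk
    · exact Or.inl ⟨hn.1, by simpa [modify, hk] using hn.2⟩

theorem existsBI_of_sequence {X : Type} (hXu : ℵ₀ < #X) (x : X → Set ℕ)
    (hx : SplittingSequence X x) : ExistsBI #X := by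
  have hXinf : ℵ₀ ≤ #X := hXu.le
  have : Infinite X := Cardinal.infinite_iff.2 hXinf
  let Y : Type := X × (ℕ × Finset ℕ)
  have hY : #Y = #X := by
    have : #Y = #X * #(ℕ × Finset ℕ) := by simp [Y]
    rw [this, Cardinal.mul_eq_left hXinf (le_trans Cardinal.mk_le_aleph0 hXinf)
      (Cardinal.mk_ne_zero _)]
  let A : ℕ → Set Y := fun n => {y | n ∈ modify y.2.1 y.2.2 (x y.1)}
  -- prescribed finite patterns
  have hpat : ∀ (F : Set ℕ), F.Finite → ∀ h : ℕ → Bool,
      #(⋂ n ∈ F, side (A n) (h n) : Set Y) = #Y := by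
    intro F hF h
    apply le_antisymm (Cardinal.mk_set_le _)
    obtain ⟨k, hk⟩ := hF.bddAbove
    classical
    let t : Finset ℕ := (Finset.range (k+1)).filter fun n => h n = false
    have hinj : Function.Injective (fun a : X => ((a, (k+1, t)) : Y)) := fun a b hab => by
      simpa using congrArg Prod.fst hab
    have hle : #Y ≤ #X := hY.le
    refine hle.trans ?_
    refine Cardinal.mk_le_of_injective (f := fun a : X =>
      (⟨(a, (k+1, t)), ?_⟩ : (⋂ n ∈ F, side (A n) (h n) : Set Y))) ?_
    · simp only [mem_iInter]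
      intro n hn
      have hnk : n < k + 1 := Nat.lt_succ_of_le (hk hn)
      cases hh : h n with
      | false =>
        simp [side, A, modify, hnk, t, hh]
      | true =>
        simp [side, A, modify, hnk, t, hh]
    · intro a b hab
      have := congrArg Subtype.val hab
      exact hinj this
  have hAinj : Function.Injective A := by
    intro m n hmn
    by_contra hne
    have h1 := hpat {m, n} (by simp) (fun i => decide (i = n))
    have hempty : (⋂ i ∈ ({m, n} : Set ℕ), side (A i) (decide (i = n)) : Set Y) = ∅ := by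
      rw [Set.eq_empty_iff_forall_notMem]
      intro y hy
      simp only [mem_iInter] at hy
      have hm := hy m (by simp)
      have hn := hy n (by simp)
      simp only [hne, decide_false, side] at hm
      simp only [decide_true, side] at hn
      rw [hmn] at hm
      exact hn hm
    rw [hempty, hY] at h1
    simp at h1
    exact (Cardinal.aleph0_pos.trans hXu).ne h1
  have hset : ∀ F : Set (Set Y), F ⊆ range A → ∀ h : Set Y → Bool,
      (⋂ B ∈ F, side B (h B) : Set Y) = ⋂ n ∈ A ⁻¹' F, side (A n) (h (A n)) := by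
    intro F hF h
    ext y
    simp only [mem_iInter, mem_preimage]
    constructor
    · intro hy n hn; exact hy _ hn
    · intro hy B hB
      obtain ⟨n, rfl⟩ := hF hB
      exact hy n hB
  refine ⟨Y, hY, range A, ?_, ?_, ?_, ?_⟩
  · exact infinite_range_of_injective hAinj
  · rintro _ ⟨n, rfl⟩
    have := hpat {n} (by simp) (fun _ => false)
    simpa [side] using this
  · intro F hF hfin h
    rw [hset F hF h]
    exact hpat _ (hfin.preimage hAinj.injOn) (fun n => h (A n))
  · intro F hF hinf _ h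
    rw [hset F hF h, hY]
    have hR : (A ⁻¹' F).Infinite := by
      intro hfin
      apply hinf
      refine (hfin.image A).subset fun B hB => ?_
      obtain ⟨n, rfl⟩ := hF hB
      exact ⟨n, hB, rfl⟩
    -- infinitely many indices with the same value of `h`
    obtain ⟨b, hb⟩ : ∃ b : Bool, {n ∈ A ⁻¹' F | h (A n) = b}.Infinite := by
      by_contra hcon
      push Not at hcon
      have h1 := hcon true
      have h2 := hcon false
      apply hR
      refine (h1.union h2).subset fun n hn => ?_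
      cases hh : h (A n) with
      | false => exact Or.inr ⟨hn, hh⟩
      | true => exact Or.inl ⟨hn, hh⟩
    set R' : Set ℕ := {n ∈ A ⁻¹' F | h (A n) = b} with hR'
    have hcount : #({a | ¬ Splits (x a) R'} ×ˢ (Set.univ : Set (ℕ × Finset ℕ)) : Set Y) < #X := by
      have h1 : #({a | ¬ Splits (x a) R'} ×ˢ (Set.univ : Set (ℕ × Finset ℕ)) : Set Y) =
          #{a | ¬ Splits (x a) R'} * #(ℕ × Finset ℕ) := by
        rw [Cardinal.mk_setProd, Cardinal.mk_univ]
      rw [h1]
      exact Cardinal.mul_lt_of_lt hXinf (hx R' hb)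
        (lt_of_le_of_lt Cardinal.mk_le_aleph0 hXu)
    have hsub : (⋂ n ∈ A ⁻¹' F, side (A n) (h (A n)) : Set Y) ⊆
        {a | ¬ Splits (x a) R'} ×ˢ (Set.univ : Set (ℕ × Finset ℕ)) := by
      intro y hy
      simp only [mem_iInter] at hy
      refine ⟨?_, mem_univ _⟩
      intro hs
      have hs' := splits_modify (k := y.2.1) (t := y.2.2) hs
      cases hbb : b with
      | false =>
        obtain ⟨n, hn1, hn2⟩ := hs'.2.nonempty
        have h3 := hy n hn1.1
        rw [hn1.2, hbb] at h3
        exact hn2 h3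
      | true =>
        obtain ⟨n, hn1, hn2⟩ := hs'.1.nonempty
        have h3 := hy n hn1.1
        rw [hn1.2, hbb] at h3
        exact h3 hn2
    exact lt_of_le_of_lt (Cardinal.mk_le_mk_of_subset hsub) hcount

/-- Countably many infinite sets can be split simultaneously. -/
theorem exists_splits_countable (R : ℕ → Set ℕ) (hR : ∀ n, (R n).Infinite) :
    ∃ S : Set ℕ, ∀ n, Splits S (R n) := by
  have hex : ∀ k m : ℕ, ∃ y, y ∈ R k.unpair.1 ∧ m < y := fun k m =>
    ((hR k.unpair.1).exists_gt m)
  choose f hf1 hf2 using hex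
  let a : ℕ → ℕ := fun n => Nat.rec (motive := fun _ => ℕ) (f 0 0) (fun k r => f (k+1) r) n
  have ha1 : ∀ n, a n ∈ R n.unpair.1 := by
    intro n
    cases n with
    | zero => exact hf1 0 0
    | succ n => exact hf1 (n+1) (a n)
  have ha2 : StrictMono a := strictMono_nat_of_lt_succ fun n => hf2 (n+1) (a n)
  refine ⟨{y | ∃ k, a k = y ∧ Even k.unpair.2}, fun n => ⟨?_, ?_⟩⟩
  · have hinj : Function.Injective fun j : ℕ => a (Nat.pair n (2*j)) := fun i j hij => by
      have := ha2.injective hij
      have := (Nat.pair_eq_pair.1 this).2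
      omega
    refine (infinite_range_of_injective hinj).mono ?_
    rintro _ ⟨j, rfl⟩
    refine ⟨?_, Nat.pair n (2*j), rfl, by simp⟩
    have := ha1 (Nat.pair n (2*j))
    simpa using this
  · have hinj : Function.Injective fun j : ℕ => a (Nat.pair n (2*j+1)) := fun i j hij => by
      have := ha2.injective hij
      have := (Nat.pair_eq_pair.1 this).2
      omega
    refine (infinite_range_of_injective hinj).mono ?_
    rintro _ ⟨j, rfl⟩
    refine ⟨?_, ?_⟩
    · have := ha1 (Nat.pair n (2*j+1))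
      simpa using this
    · rintro ⟨k, hk, hk2⟩
      have := ha2.injective hk
      rw [this] at hk2
      simp at hk2

theorem aleph_one_le_reaping : ℵ₁ ≤ reapingNumber := by
  by_contra hcon
  push Not at hcon
  obtain ⟨R, hRκ, hRinf, hR⟩ := csInf_mem reaping_nonempty
  have hcard : #R < ℵ₁ := by
    have : #R = reapingNumber := hRκ
    rw [this]; exact hcon
  have hcount : R.Countable := by
    rw [← Cardinal.le_aleph0_iff_set_countable]
    exact Cardinal.lt_aleph_one_iff.1 hcard
  have hne : R.Nonempty := by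
    obtain ⟨A, hA, -⟩ := hR ∅
    exact ⟨A, hA⟩
  obtain ⟨f, hf⟩ := hcount.exists_eq_range hne
  obtain ⟨S, hS⟩ := exists_splits_countable f (fun n => hRinf _ (hf ▸ mem_range_self n))
  obtain ⟨A, hA, hA2⟩ := hR S
  rw [hf] at hA
  obtain ⟨n, rfl⟩ := hA
  exact hA2 (hS n)

end Pool.Agent.Helper914_BI
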